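import Pool.Agent.H71.FX.Targets

/-! Row CT of the board fxm_modules: the number of a row grows. -/

set_option autoImplicit false

namespace Pool.Agent.H34.FX

open Pool.Agent.H71.FX Pool.Agent.H71.PF Pool.Agent.H8.PL

theorem pf_CT (_it : T_IT) (co : T_CO) (ad : T_AD) : T_CT := by
  intro α Q m hR x j hlf htp hrt hnr
  have hco : ∀ i ≤ j, m.r^[i] (m.u x) = m.u (m.r^[i] x) ∧ ¬ m.tp (m.r^[i] x) ∧
      (m.rt (m.r^[i] (m.u x)) ↔ m.rt (m.r^[i] x)) ∧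
      (m.lf (m.r^[i] (m.u x)) ↔ m.lf (m.r^[i] x)) ∧ ∀ a < i, ¬ m.rt (m.r^[a] (m.u x)) := by
    intro i hi
    obtain ⟨h1, h2, h3, h4, -, h6, -⟩ := co α Q m hR x i 1
      (fun a ha => hnr a (lt_of_lt_of_le ha hi)) (fun b hb => by
        obtain rfl : b = 0 := by omega
        exact htp)
    exact ⟨h1, h3 0 Nat.one_pos, h4, h6, h2⟩
  refine ⟨((hco 0 (Nat.zero_le j)).2.2.2.1).2 hlf, (hco j le_rfl).2.2.1.2 hrt,
    (hco j le_rfl).2.2.2.2, ?_⟩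
  refine ad (fun i => m.d1 (m.r^[i] x)) (fun i => m.d1 (m.r^[i] (m.u x)))
    (fun i => (i ≤ j ∧ m.k1 (m.r^[i] x)) ∨ (j < i ∧ m.k1 (m.r^[j] x) ∧ m.d1 (m.r^[j] x)))
    (j + 1) ?_ ?_ ?_ ?_
  · exact Or.inl ⟨Nat.zero_le j, (hR x).2.1.1 hlf⟩
  · intro i hi
    show ((i + 1 ≤ j ∧ m.k1 (m.r^[i + 1] x)) ∨
      (j < i + 1 ∧ m.k1 (m.r^[j] x) ∧ m.d1 (m.r^[j] x))) ↔
      ((i ≤ j ∧ m.k1 (m.r^[i] x)) ∨ (j < i ∧ m.k1 (m.r^[j] x) ∧ m.d1 (m.r^[j] x))) ∧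
        m.d1 (m.r^[i] x)
    rcases Nat.lt_or_ge i j with h | h
    · have h1 := (hR (m.r^[i] x)).2.1.2.1 (hnr i h)
      have e := Function.iterate_succ_apply' m.r i x
      rw [← e] at h1
      constructor
      · rintro (⟨-, h2⟩ | ⟨h2, -⟩)
        · exact ⟨Or.inl ⟨h.le, (h1.1 h2).1⟩, (h1.1 h2).2⟩
        · exact absurd h2 (by omega)
      · rintro ⟨⟨-, h2⟩ | ⟨h2, -⟩, h3⟩
        · exact Or.inl ⟨h, h1.2 ⟨h2, h3⟩⟩
        · exact absurd h2 (by omega)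
    · obtain rfl : i = j := by omega
      constructor
      · rintro (⟨h2, -⟩ | ⟨-, h2, h3⟩)
        · exact absurd h2 (by omega)
        · exact ⟨Or.inl ⟨le_rfl, h2⟩, h3⟩
      · rintro ⟨⟨-, h2⟩ | ⟨h2, -⟩, h3⟩
        · exact Or.inr ⟨Nat.lt_succ_self i, h2, h3⟩
        · exact absurd h2 (by omega)
  · intro i hi
    have hij : i ≤ j := by omega
    obtain ⟨h1, h2, -⟩ := hco i hij
    have h3 := ((hR (m.r^[i] x)).2.1.2.2 h2).1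
    show m.d1 (m.r^[i] (m.u x)) ↔ ¬ (m.d1 (m.r^[i] x) ↔ ((i ≤ j ∧ m.k1 (m.r^[i] x)) ∨
      (j < i ∧ m.k1 (m.r^[j] x) ∧ m.d1 (m.r^[j] x))))
    rw [h1, h3]
    have h4 : ((i ≤ j ∧ m.k1 (m.r^[i] x)) ∨
        (j < i ∧ m.k1 (m.r^[j] x) ∧ m.d1 (m.r^[j] x))) ↔ m.k1 (m.r^[i] x) := by
      constructor
      · rintro (⟨-, h⟩ | ⟨h, -⟩)
        · exact h
        · exact absurd h (by omega)
      · exact fun h => Or.inl ⟨hij, h⟩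
    rw [h4]
  · rintro (⟨h, -⟩ | ⟨-, h1, h2⟩)
    · exact absurd h (by omega)
    · exact ((hR (m.r^[j] x)).2.1.2.2 (hco j le_rfl).2.1).2 hrt ⟨h1, h2⟩

end Pool.Agent.H34.FX
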